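import Pool.Agent.AFL.Stmts

/-!
# AFL, row DRB: the error of the drift and the size of the ladder rate
-/

set_option autoImplicit false

open MeasureTheory ProbabilityTheory

open scoped BigOperators Matrix

noncomputable section

namespace Pool.Agent.AFL.H21

open Pool.Agent.AFL Pool.Agent.LE.QF Pool.Agent.AFJ Pool.Agent.ABY

section

variable {X : Type} [Fintype X] [DecidableEq X] (F : Fl X) {c₀ C₀ : ℝ}

theorem k_in {x : X} (hx : x ∈ F.b) (t : ℝ) : F.k t x + t * F.g x = F.k 0 x := by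
  simp only [Fl.k, Fl.g, Blk.kp, if_pos hx]
  ring

theorem k_out {x : X} (hx : x ∉ F.b) (t : ℝ) : F.k t x = F.k 0 x := by
  simp only [Fl.k, Blk.kp, if_neg hx]

theorem facts (h : F.Ok c₀ C₀) {t : ℝ} (h0 : 0 ≤ t) (hT : t ≤ F.T) {x : X} (hx : x ∈ F.b) :
    0 < F.g x ∧ F.κv ≤ F.k t x ∧ F.k t x ≤ F.k 0 x ∧ F.k 0 x ≤ 2 * F.k t x := by
  have hRg : x ∈ F.Rg := h.hb.2.1 (h.hb.1 hx)
  have hA : x ∈ F.A := h.hb.2.2 hRg
  obtain ⟨g1, g2⟩ := h.hg x hA
  have hc : 0 < c₀ := h.num.2.2.2.1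
  have hg : 0 < F.g x := lt_of_lt_of_le hc g1
  have e1 := k_in F hx t
  have e2 := k_in F hx F.T
  have e3 := h.hv x hRg
  have e4 : t * F.g x ≤ F.T * F.g x := mul_le_mul_of_nonneg_right hT hg.le
  have e5 : 0 ≤ t * F.g x := mul_nonneg h0 hg.le
  have e6 : t * F.g x ≤ F.κv := by
    calc t * F.g x ≤ F.T * F.g x := e4
      _ ≤ F.T * C₀ := mul_le_mul_of_nonneg_left g2 h.hT.le
      _ ≤ F.κv := h.hTv.1
  exact ⟨hg, by linarith, by linarith, by linarith⟩

end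

theorem drb : DrbStmt := by
  intro hBet hDre hEub hPta X _ _ F c₀ C₀ q hOk hN hN0
  have hκ : 0 < F.κv := hOk.num.1
  have hr : 1 ≤ F.r := hOk.num.2.2.1
  have hr0 : 0 < F.r := by linarith
  have hN' : 0 ≤ F.N := hOk.num.2.2.2.2.2.2.1
  have hδ' : 0 < F.δ := hOk.num.2.2.2.2.2.2.2.1
  have hbA : F.b ⊆ F.A := hOk.hb.1.trans (hOk.hb.2.1.trans hOk.hb.2.2)
  have hbQ : F.b ⊆ F.Q := hOk.hQ.1.trans hOk.hQ.2.1
  have hQA : F.Q ⊆ F.A := hOk.hQ.2.2
  have hμs : 0 ≤ F.μs := by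
    rw [Fl.μs]
    positivity
  -- the absorption at the start
  have hrho : ∀ x ∈ F.Q, rho F.G0 (F.k 0) F.A x ≤ F.r := by
    intro x hx
    have h1 := (hEub X F.G0 (F.k 0) F.A F.b 0 hN0 hbA).2.2.2.2.2 x
    have h2 : 0 ≤ ∑ y ∈ F.Aᶜ, F.k 0 y * KK F.G0 x y :=
      Finset.sum_nonneg fun y _ => mul_nonneg (hN0.hκ y).le (by
        simp only [KK]
        positivity)
    have h3 := hOk.him x hx
    linarith
  refine ⟨?_, ?_, ?_⟩
  · intro hPt f hf
    have hp := hPta hEub X F c₀ C₀ q hOk hPt hN hN0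
    obtain ⟨p1, -, -, -, -, -, p7, -, -, -, -, p12, -⟩ := hp
    have h1 := hDre hBet X (F.Gt q) (F.k q.1) F.g (mub (F.Gt q) F.mb F.b) F.A F.b f F.κv F.μs
      ((F.N + 2) * F.δ) hN hκ hbA (fun c hc => p1 c (hOk.hb.2.1 (hOk.hb.1 hc)))
      (fun x hx => (p12 x hx).1) (by positivity) hμs (fun c _ => p7 c) (fun c hc => by
        simp only [mub, if_neg hc])
    have h2 : qf (EE (F.Gt q) (F.k q.1) F.A) f ≤ 2 * qf F.E0 f :=
      (le_abs_self _).trans (hPt.fru f hf)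
    have h3 : 0 ≤ (2 * ((F.N + 2) * F.δ) + 4 * F.μs) / F.κv := by positivity
    calc |qf (Dl (ee (F.Gt q) (F.k q.1) F.g (mub (F.Gt q) F.mb F.b) F.A F.b)) f|
        ≤ (2 * ((F.N + 2) * F.δ) + 4 * F.μs) / F.κv * qf (EE (F.Gt q) (F.k q.1) F.A) f := h1
      _ ≤ (2 * ((F.N + 2) * F.δ) + 4 * F.μs) / F.κv * (2 * qf F.E0 f) :=
          mul_le_mul_of_nonneg_left h2 h3
      _ = _ := by ring
  · intro h0 hT f
    have ha : 0 ≤ 2 * F.r / F.κv := by positivity
    have h1 := (hEub X F.G0 (F.k 0) F.A F.b f hN0 hbA).2.2.2.1 (F.k q.1) (2 * F.r / F.κv) ha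
      (fun x hx => lt_of_lt_of_le hκ (facts F hOk h0 hT hx).2.1) (fun x hx => by
        obtain ⟨-, f2, f3, f4⟩ := facts F hOk h0 hT hx
        have hk : 0 < F.k q.1 x := lt_of_lt_of_le hκ f2
        have hk0 : 0 ≤ F.k 0 x := (hN0.hκ x).le
        calc F.k 0 x * rho F.G0 (F.k 0) F.A x ≤ F.k 0 x * F.r :=
              mul_le_mul_of_nonneg_left (hrho x (hbQ hx)) hk0
          _ ≤ 2 * F.k q.1 x * F.r := mul_le_mul_of_nonneg_right f4 hr0.le
          _ = 2 * F.r / F.κv * (F.κv * F.k q.1 x) := by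
              field_simp
          _ ≤ 2 * F.r / F.κv * (F.k q.1 x * F.k q.1 x) :=
              mul_le_mul_of_nonneg_left (mul_le_mul_of_nonneg_right f2 hk.le) ha
          _ = 2 * F.r / F.κv * F.k q.1 x ^ 2 := by ring)
    calc ∑ x ∈ F.b, ((F.E0 *ᵥ f) x / F.k q.1 x) ^ 2
        ≤ 2 * (2 * F.r / F.κv) * qf (EE F.G0 (F.k 0) F.A) f := h1
      _ = 4 * F.r / F.κv * qf F.E0 f := by
          rw [Fl.E0]
          ring
  · intro h0 hT
    have hlam : ∀ x, 0 ≤ F.lam q.1 x ∧ F.lam q.1 x ≤ 1 / (2 * F.r * F.k 0 x) := by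
      intro x
      have hk0 : 0 < F.k 0 x := hN0.hκ x
      by_cases hx : x ∈ F.b
      · obtain ⟨hg, f2, f3, -⟩ := facts F hOk h0 hT hx
        have hk : 0 < F.k q.1 x := lt_of_lt_of_le hκ f2
        have e1 := k_in F hx q.1
        have e2 : F.lam q.1 x = q.1 / (F.k q.1 x * F.k 0 x) := by
          rw [Fl.lam, if_pos hx]
          have e3 : 1 / F.k q.1 x - 1 / F.k 0 x = q.1 * F.g x / (F.k q.1 x * F.k 0 x) := by
            rw [div_sub_div _ _ hk.ne' hk0.ne']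
            congr 1
            linarith
          rw [e3]
          field_simp
        rw [e2]
        refine ⟨by positivity, ?_⟩
        rw [div_le_div_iff₀ (by positivity) (by positivity)]
        have e4 : 2 * F.r * q.1 ≤ F.k q.1 x := by
          calc 2 * F.r * q.1 ≤ 2 * F.r * F.T := mul_le_mul_of_nonneg_left hT (by positivity)
            _ ≤ F.κv := hOk.hTv.2
            _ ≤ F.k q.1 x := f2
        calc q.1 * (2 * F.r * F.k 0 x) = 2 * F.r * q.1 * F.k 0 x := by ring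
          _ ≤ F.k q.1 x * F.k 0 x := mul_le_mul_of_nonneg_right e4 hk0.le
          _ = 1 * (F.k q.1 x * F.k 0 x) := by ring
      · rw [Fl.lam, if_neg hx]
        exact ⟨le_rfl, by positivity⟩
    refine ⟨fun x => (hlam x).1, fun φ hφ => ?_⟩
    refine ⟨fun x => φ x / (2 * F.r * F.k 0 x), fun x hx => by
      show φ x / (2 * F.r * F.k 0 x) = 0
      rw [hφ x hx, zero_div], ?_⟩
    have h1 := (hEub X F.G0 (F.k 0) F.A F.b (fun x => φ x / (2 * F.r * F.k 0 x)) hN0 hbA).2.2.1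
    have h2 : ∑ x ∈ F.A, F.k 0 x * rho F.G0 (F.k 0) F.A x * (φ x / (2 * F.r * F.k 0 x)) ^ 2 ≤
        ∑ x, φ x ^ 2 / (4 * F.r * F.k 0 x) := by
      have h3 : ∀ x, F.k 0 x * rho F.G0 (F.k 0) F.A x * (φ x / (2 * F.r * F.k 0 x)) ^ 2 ≤
          φ x ^ 2 / (4 * F.r * F.k 0 x) := by
        intro x
        have hk0 : 0 < F.k 0 x := hN0.hκ x
        by_cases hx : x ∈ F.Q
        · have h4 : F.k 0 x * rho F.G0 (F.k 0) F.A x * (φ x / (2 * F.r * F.k 0 x)) ^ 2 ≤
              F.k 0 x * F.r * (φ x / (2 * F.r * F.k 0 x)) ^ 2 :=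
            mul_le_mul_of_nonneg_right (mul_le_mul_of_nonneg_left (hrho x hx) hk0.le)
              (sq_nonneg _)
          refine h4.trans (le_of_eq ?_)
          field_simp
          ring
        · rw [hφ x hx]
          simp
      refine (Finset.sum_le_sum fun x _ => h3 x).trans ?_
      refine Finset.sum_le_sum_of_subset_of_nonneg (Finset.subset_univ _) fun x _ _ => ?_
      have hk0 : 0 < F.k 0 x := hN0.hκ x
      positivity
    have h5 : qf F.E0 (fun x => φ x / (2 * F.r * F.k 0 x)) ≤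
        2 * ∑ x, φ x ^ 2 / (4 * F.r * F.k 0 x) := by
      refine h1.trans ?_
      linarith
    have h6 : ∑ x, F.lam q.1 x * φ x ^ 2 ≤ ∑ x, φ x ^ 2 / (2 * F.r * F.k 0 x) := by
      refine Finset.sum_le_sum fun x _ => ?_
      have := mul_le_mul_of_nonneg_right (hlam x).2 (sq_nonneg (φ x))
      refine this.trans (le_of_eq ?_)
      ring
    have h7 : 2 * ∑ x, φ x / (2 * F.r * F.k 0 x) * φ x -
        2 * ∑ x, φ x ^ 2 / (4 * F.r * F.k 0 x) = ∑ x, φ x ^ 2 / (2 * F.r * F.k 0 x) := by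
      rw [Finset.mul_sum, Finset.mul_sum, ← Finset.sum_sub_distrib]
      refine Finset.sum_congr rfl fun x _ => ?_
      have hk0 : 0 < F.k 0 x := hN0.hκ x
      field_simp
      ring
    linarith

end Pool.Agent.AFL.H21
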